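import Pool.Agent.SemiTrans.Correct

/-!
Semi-transitivity of chordal graphs is decidable in polynomial time.
-/

namespace Pool.Agent.Results.MP_1d1d91_lc.PolyTime

open Pool.Agent.SemiTrans

open Classical in
/-- There is a Turing machine which, given a chordal graph (number of vertices, number of edges and
list of edges), decides in polynomial time whether it is semi-transitive. The length of the
input is at most `2 (n + 1) ^ 3`, where `n` is the number of vertices, so that the running time is
polynomial in `n`. -/
theorem result :
    Nonempty (Turing.TM2ComputableInPolyTime ChordalInput.encode (fun b : Bool => [b])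
      (fun x : ChordalInput => decide (SemiTransitive x.graph))) ∧
    ∀ x : ChordalInput, x.encode.length ≤ 2 * (x.n + 1) ^ 3 := by
  refine ⟨?_, encode_length⟩
  exact Pool.Agent.SemiTrans.PT.PolyTime.tm2_string run_polyTime _ _ _
    (fun x => run_encode x _ (by simp))

end Pool.Agent.Results.MP_1d1d91_lc.PolyTime
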